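import Mathlib

/-!
MP_c37615_al (S02984), part D-IIa: complex polynomials (no sorry)
-/

set_option autoImplicit false

open Filter Topology Polynomial

namespace C37

/-- the product of `X - z` -/
noncomputable def d2pr (S : Multiset ℂ) : ℂ[X] := (S.map (fun z => X - C z)).prod

theorem d2pr_zero : d2pr 0 = 1 := by simp [d2pr]
theorem d2pr_cons (z : ℂ) (S : Multiset ℂ) : d2pr (z ::ₘ S) = (X - C z) * d2pr S := by simp [d2pr]
theorem d2pr_add (S S' : Multiset ℂ) : d2pr (S + S') = d2pr S * d2pr S' := by simp [d2pr]

end C37
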