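import Mathlib
import Pool.Agent.Lib.MP_c37615_al.D2.A_G00

/-!
MP_c37615_al (S02984), part D-IIa: task G01 (growth of M^n v over ℂ)
-/

set_option autoImplicit false

open Filter Topology Polynomial

namespace C37

/-- G01a. Scalar recursion: `a 0`, `a (n+1) ≤ l * a n + C' * ρ^n`, `0 ≤ l < ρ`: take `C = max (a 0) (C'/(ρ-l))`. -/
theorem d2_rec_bound (a : ℕ → ℝ) (l ρ C' : ℝ) (hl : 0 ≤ l) (hlρ : l < ρ) (hC' : 0 ≤ C')
    (h : ∀ n, a (n + 1) ≤ l * a n + C' * ρ ^ n) : ∃ C : ℝ, ∀ n, a n ≤ C * ρ ^ n := by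
  have hρ : 0 < ρ := lt_of_le_of_lt hl hlρ
  have hd : 0 < ρ - l := by linarith
  refine ⟨max (a 0) (C' / (ρ - l)), ?_⟩
  intro n
  induction n with
  | zero => simp
  | succ n ih =>
    have hC : C' / (ρ - l) ≤ max (a 0) (C' / (ρ - l)) := le_max_right _ _
    set C := max (a 0) (C' / (ρ - l)) with hCd
    have h1 : C' ≤ C * (ρ - l) := by
      rwa [div_le_iff₀ hd] at hC
    have hp : 0 < ρ ^ n := pow_pos hρ n
    calc a (n + 1) ≤ l * a n + C' * ρ ^ n := h n
      _ ≤ l * (C * ρ ^ n) + (C * (ρ - l)) * ρ ^ n := by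
        have := mul_le_mul_of_nonneg_left ih hl
        have := mul_le_mul_of_nonneg_right h1 hp.le
        linarith
      _ = C * ρ ^ (n + 1) := by ring

/-- G01b. Induction on S (Multiset.induction, v arbitrary). S = 0: v = 0. `z ::ₘ S`: w := (M - z) v satisfies the
hypothesis for S (aeval of a product is the product, the factors commute), so ‖M^n w‖ ≤ C' ρ^n (C' may be replaced by |C'|),
and `M^(n+1) v = z M^n v + M^n w`, so `‖M^(n+1) v‖ ≤ ‖z‖ ‖M^n v‖ + |C'| ρ^n`; use G01a. -/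
theorem d2_grow (M : Matrix (Fin 7) (Fin 7) ℂ) (S : Multiset ℂ) (v : Fin 7 → ℂ)
    (h : (aeval M (d2pr S)).mulVec v = 0) (ρ : ℝ) (hρ : 0 < ρ) (hS : ∀ z ∈ S, ‖z‖ < ρ) :
    ∃ C : ℝ, ∀ n : ℕ, ‖(M ^ n).mulVec v‖ ≤ C * ρ ^ n := by
  induction S using Multiset.induction generalizing v with
  | empty =>
    have h1 : v = 0 := by
      simpa [d2pr] using h
    refine ⟨0, fun n => ?_⟩
    rw [h1, Matrix.mulVec_zero, norm_zero, zero_mul]
  | cons z S ih =>
    have hz : ‖z‖ < ρ := hS z (Multiset.mem_cons_self z S)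
    have hpr : d2pr (z ::ₘ S) = d2pr S * (X - C z) := by
      simp [d2pr, mul_comm]
    rw [hpr, map_mul, ← Matrix.mulVec_mulVec] at h
    obtain ⟨C', hC'⟩ := ih _ h (fun y hy => hS y (Multiset.mem_cons_of_mem hy))
    have hstep : ∀ n : ℕ, (M ^ (n + 1)).mulVec v = z • (M ^ n).mulVec v +
        (M ^ n).mulVec ((aeval M (X - C z)).mulVec v) := by
      intro n
      rw [map_sub, aeval_X, aeval_C, Matrix.sub_mulVec, Matrix.mulVec_sub, Matrix.mulVec_mulVec, ← pow_succ]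
      have : (algebraMap ℂ (Matrix (Fin 7) (Fin 7) ℂ) z).mulVec v = z • v := by
        rw [Matrix.algebraMap_eq_diagonal]
        ext i
        simp [Matrix.mulVec_diagonal]
      rw [this, Matrix.mulVec_smul]
      abel
    apply d2_rec_bound (fun n => ‖(M ^ n).mulVec v‖) ‖z‖ ρ |C'| (norm_nonneg _) hz (abs_nonneg _)
    intro n
    show ‖(M ^ (n + 1)).mulVec v‖ ≤ ‖z‖ * ‖(M ^ n).mulVec v‖ + |C'| * ρ ^ n
    rw [hstep n]
    refine (norm_add_le _ _).trans ?_
    rw [norm_smul]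
    have h1 := hC' n
    have h2 : C' * ρ ^ n ≤ |C'| * ρ ^ n := mul_le_mul_of_nonneg_right (le_abs_self _) (by positivity)
    linarith

end C37
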