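import Mathlib
import Pool.Agent.Lib.MP_c37615_al.D2.A_G01

/-!
MP_c37615_al (S02984), part D-IIa: task G02 (growth of the inverse powers)
-/

set_option autoImplicit false

open Filter Topology Polynomial

namespace C37

/-- G02a. If `M * M' = 1`, all z in S nonzero: `M' - z⁻¹ = (-z⁻¹) M' (M - z)`; by induction on S,
`aeval M' (d2pr (S.map (·⁻¹))) = c • M'^k * aeval M (d2pr S)` for some c, k (everything commutes). -/
theorem d2_aeval_inv (M M' : Matrix (Fin 7) (Fin 7) ℂ) (hM : M * M' = 1) (S : Multiset ℂ) (hS : ∀ z ∈ S, z ≠ 0) :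
    ∃ (c : ℂ) (k : ℕ), aeval M' (d2pr (S.map (fun z => z⁻¹))) = c • (M' ^ k * aeval M (d2pr S)) := by
  have hM' : M' * M = 1 := mul_eq_one_comm.1 hM
  have hcomm : Commute M' M := by
    show M' * M = M * M'
    rw [hM, hM']
  induction S using Multiset.induction with
  | empty =>
    refine ⟨1, 0, ?_⟩
    simp [d2pr]
  | cons z S ih =>
    obtain ⟨c, k, hck⟩ := ih (fun y hy => hS y (Multiset.mem_cons_of_mem hy))
    have hz : z ≠ 0 := hS z (Multiset.mem_cons_self z S)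
    refine ⟨-z⁻¹ * c, k + 1, ?_⟩
    have hpr : ∀ (y : ℂ) (T : Multiset ℂ), d2pr (y ::ₘ T) = (X - C y) * d2pr T := by
      intro y T
      simp [d2pr]
    have h1 : aeval M' (X - C z⁻¹) = (-z⁻¹) • (M' * aeval M (X - C z)) := by
      rw [map_sub, map_sub, aeval_X, aeval_X, aeval_C, aeval_C, mul_sub, hM']
      rw [Algebra.algebraMap_eq_smul_one, Algebra.algebraMap_eq_smul_one, mul_smul_comm, mul_one, smul_sub,
        smul_smul]
      rw [neg_mul, inv_mul_cancel₀ hz, neg_smul, neg_smul, one_smul]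
      abel
    have hc1 : Commute (aeval M (X - C z)) (M' ^ k) := by
      have h2 : Commute M' (aeval M (X - C z)) := by
        rw [map_sub, aeval_X, aeval_C]
        exact hcomm.sub_right (Algebra.commutes z M').symm
      exact (h2.symm).pow_right k
    rw [Multiset.map_cons, hpr, hpr, map_mul, map_mul, hck, h1]
    rw [smul_mul_smul_comm]
    congr 1
    calc M' * (aeval M) (X - C z) * (M' ^ k * (aeval M) (d2pr S))
        = M' * ((aeval M) (X - C z) * M' ^ k) * (aeval M) (d2pr S) := by simp only [mul_assoc]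
      _ = M' * (M' ^ k * (aeval M) (X - C z)) * (aeval M) (d2pr S) := by rw [hc1.eq]
      _ = M' ^ (k + 1) * ((aeval M) (X - C z) * (aeval M) (d2pr S)) := by
        rw [pow_succ']; simp only [mul_assoc]

/-- G02b. G01b for M' and S.map (·⁻¹), using G02a. -/
theorem d2_grow_inv (M M' : Matrix (Fin 7) (Fin 7) ℂ) (hM : M * M' = 1) (S : Multiset ℂ) (v : Fin 7 → ℂ)
    (h : (aeval M (d2pr S)).mulVec v = 0) (ρ : ℝ) (hρ : 0 < ρ) (hS : ∀ z ∈ S, z ≠ 0 ∧ ‖z⁻¹‖ < ρ) :
    ∃ C : ℝ, ∀ n : ℕ, ‖(M' ^ n).mulVec v‖ ≤ C * ρ ^ n := by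
  obtain ⟨c, k, hck⟩ := d2_aeval_inv M M' hM S (fun z hz => (hS z hz).1)
  apply d2_grow M' (S.map (fun z => z⁻¹)) v ?_ ρ hρ ?_
  · rw [hck, Matrix.smul_mulVec, ← Matrix.mulVec_mulVec, h, Matrix.mulVec_zero, smul_zero]
  · intro z hz
    rw [Multiset.mem_map] at hz
    obtain ⟨y, hy, rfl⟩ := hz
    exact (hS y hy).2

end C37
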