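import Mathlib
import Pool.Agent.Lib.MP_c37615_al.D2.A_G00

/-!
MP_c37615_al (S02984), part D-IIa: task G03 (Bezout)
-/

set_option autoImplicit false

open Filter Topology Polynomial

namespace C37

theorem G03_cop1 (z : ℂ) (S : Multiset ℂ) (h : z ∉ S) : IsCoprime (X - C z) (d2pr S) := by
  induction S using Multiset.induction with
  | empty => rw [d2pr_zero]; exact isCoprime_one_right
  | cons w S ih =>
    rw [d2pr_cons]
    rw [Multiset.mem_cons, not_or] at h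
    refine IsCoprime.mul_right ?_ (ih h.2)
    exact Polynomial.isCoprime_X_sub_C_of_isUnit_sub (sub_ne_zero.2 h.1).isUnit

theorem G03_cop (S S' : Multiset ℂ) (h : ∀ z ∈ S, z ∉ S') : IsCoprime (d2pr S) (d2pr S') := by
  induction S using Multiset.induction with
  | empty => rw [d2pr_zero]; exact isCoprime_one_left
  | cons w S ih =>
    rw [d2pr_cons]
    exact IsCoprime.mul_left (G03_cop1 w S' (h w (Multiset.mem_cons_self w S)))
      (ih (fun z hz => h z (Multiset.mem_cons_of_mem hz)))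

/-- G03. Bezout. `d2pr S1` and `d2pr (S2 + S3)` are coprime, `d2pr S2` and `d2pr S3` are coprime (linear factors with
different roots: `isCoprime_X_sub_C_of_isUnit_sub` or `Polynomial.isCoprime_X_sub_C_of_isUnit_sub`; products:
`IsCoprime.mul_left` by Multiset induction). a p1 + b p2 p3 = 1, c p2 + d p3 = 1:
P1 = b p2 p3, P2 = a d p1 p3, P3 = a c p1 p2. -/
theorem d2_bezout (S1 S2 S3 : Multiset ℂ) (h12 : ∀ z ∈ S1, z ∉ S2) (h13 : ∀ z ∈ S1, z ∉ S3)
    (h23 : ∀ z ∈ S2, z ∉ S3) : ∃ P1 P2 P3 : ℂ[X], P1 + P2 + P3 = 1 ∧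
      d2pr (S1 + S2 + S3) ∣ d2pr S1 * P1 ∧ d2pr (S1 + S2 + S3) ∣ d2pr S2 * P2 ∧
      d2pr (S1 + S2 + S3) ∣ d2pr S3 * P3 := by
  have h1 : IsCoprime (d2pr S1) (d2pr (S2 + S3)) := by
    apply G03_cop
    intro z hz hz'
    rcases Multiset.mem_add.1 hz' with h | h
    · exact h12 z hz h
    · exact h13 z hz h
  have h2 : IsCoprime (d2pr S2) (d2pr S3) := G03_cop _ _ h23
  obtain ⟨a, b, hab⟩ := h1
  obtain ⟨c, d, hcd⟩ := h2
  rw [d2pr_add] at hab
  refine ⟨b * (d2pr S2 * d2pr S3), a * d * (d2pr S1 * d2pr S3), a * c * (d2pr S1 * d2pr S2), ?_, ?_, ?_, ?_⟩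
  · linear_combination hab + a * d2pr S1 * hcd
  · rw [d2pr_add, d2pr_add]
    exact ⟨b, by ring⟩
  · rw [d2pr_add, d2pr_add]
    exact ⟨a * d, by ring⟩
  · rw [d2pr_add, d2pr_add]
    exact ⟨a * c, by ring⟩

end C37
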