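import Mathlib
import Pool.Agent.Lib.MP_c37615_al.Defs
import Pool.Agent.Lib.MP_c37615_al.D.Core
import Pool.Agent.Lib.MP_c37615_al.Mg.G033

/-!
MP_c37615_al (S02984), part D-IIb (paper 6.4.4 - 6.4.6), file B_K7
-/

set_option autoImplicit false

open Filter Topology NormedSpace

namespace C37
namespace DB

/-- a derivation preserving the standard flag (and killing its line) lies in the nilradical.
Proof. Put `c` for the given constant. Write `Z va = A va + ∑ α_i x_i + ∑ β_i y_i` etc. (`null_decomp`). Products: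
va x xi = xi, va x yi = -yi, x1 x x2 = y3, x2 x x3 = y1, x3 x x1 = y2, y1 x y2 = -x3, y2 x y3 = -x1, y3 x y1 = -x2,
xi x yi = va/2, xi x yj = 0 (i ≠ j).
(1) `B (Z va) va + B va (Z va) = 0`: A = 0. Derivation rule on `va x x1 = x1`: `Z va x x1 + va x (c y3) = c y3`, so
`Z va x x1 = 2c y3`; `Z va x x1 = -α2 y3 + α3 y2 - (β1/2) va`: `α2 = -2c`, `α3 = 0`, `β1 = 0`. On `va x y3 = -y3`:
`Z va x y3 = 0`: `β2 = 0`. So `Z va = α1 x1 - 2c x2 + β3 y3`.
(2) `x1 x x2 = y3`: `x1 x Z x2 = 0` (as `y3 x x2 = 0`): `Z x2` has no `va, x2, x3, y1` coefficient; `va x x2 = x2`: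
`α1 y3 + va x Z x2 = Z x2`: `Z x2 = p1 x1 + (α1/2) y3`.
(3) `va x x3 = x3`: `Z va x x3 + va x Z x3 = Z x3` with `Z va x x3 = -α1 y2 - 2c y1 - (β3/2) va`:
`Z x3 = -(β3/2) va + r1 x1 + r2 x2 + r3 x3 - c y1 - (α1/2) y2`; `x3 x y3 = va/2`: `Z x3 x y3 = (Z va)/2` gives `r3 = 0`.
(4) `y1 = x2 x x3`, `y2 = x3 x x1`: `Z y1`, `Z y2` are determined.
Result: `Z = nn (-p1) c (α1/2) β3 (-r2) (-r1)`; check with `null_ext` and the tables.
(Alternative: brute force; every entry of Z is determined by linear equations: instantiate `Der` on pairs of null basis vectors,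
get scalar equations in the 49 entries, and conclude by `linarith`.) -/
theorem der_nn (Z : Mat) (hZ : Der Z) (h1 : Z.mulVec y3 = 0) (h2 : ∃ c : ℝ, Z.mulVec x1 = c • y3) :
    ∃ b a c d e f : ℝ, Z = nn b a c d e f := by
  obtain ⟨c, hc⟩ := h2
  obtain ⟨za, hza⟩ : ∃ z, z = Z.mulVec va := ⟨_, rfl⟩
  obtain ⟨z2, hz2⟩ : ∃ z, z = Z.mulVec x2 := ⟨_, rfl⟩
  obtain ⟨z3, hz3⟩ : ∃ z, z = Z.mulVec x3 := ⟨_, rfl⟩
  obtain ⟨w1, hw1⟩ : ∃ z, z = Z.mulVec y1 := ⟨_, rfl⟩
  obtain ⟨w2, hw2⟩ : ∃ z, z = Z.mulVec y2 := ⟨_, rfl⟩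
  have k2 : cross va x2 = x2 := by
    ext i; fin_cases i <;> simp [cross, va, x2] <;> norm_num
  have E1 := hZ.1 va va
  rw [← hza] at E1
  have E2 := hZ.2 va x1
  rw [cross_va_x1, hc, ← hza] at E2
  have E3 := hZ.2 va y3
  rw [cross_va_y3, Matrix.mulVec_neg, h1, ← hza] at E3
  have E4 := hZ.2 x1 x2
  rw [cross_x1_x2, h1, hc, ← hz2] at E4
  have E5 := hZ.2 va x2
  rw [k2, ← hza, ← hz2] at E5
  have E6 := hZ.2 va x3
  rw [cross_va_x3, ← hza, ← hz3] at E6
  have E7 := hZ.2 x3 y3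
  rw [cross_x3_y3, Matrix.mulVec_smul, h1, ← hza, ← hz3] at E7
  have E8 := hZ.2 x2 x3
  rw [cross_x2_x3, ← hw1, ← hz2, ← hz3] at E8
  have E9 := hZ.2 x3 x1
  rw [cross_x3_x1, ← hw2, ← hz3, hc] at E9
  have E20 := congrFun E2 0
  have E21 := congrFun E2 1
  have E22 := congrFun E2 2
  have E23 := congrFun E2 3
  have E24 := congrFun E2 4
  have E25 := congrFun E2 5
  have E26 := congrFun E2 6
  have E30 := congrFun E3 0
  have E31 := congrFun E3 1
  have E32 := congrFun E3 2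
  have E33 := congrFun E3 3
  have E34 := congrFun E3 4
  have E35 := congrFun E3 5
  have E36 := congrFun E3 6
  have E40 := congrFun E4 0
  have E41 := congrFun E4 1
  have E42 := congrFun E4 2
  have E43 := congrFun E4 3
  have E44 := congrFun E4 4
  have E45 := congrFun E4 5
  have E46 := congrFun E4 6
  have E50 := congrFun E5 0
  have E51 := congrFun E5 1
  have E52 := congrFun E5 2
  have E53 := congrFun E5 3
  have E54 := congrFun E5 4
  have E55 := congrFun E5 5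
  have E56 := congrFun E5 6
  have E60 := congrFun E6 0
  have E61 := congrFun E6 1
  have E62 := congrFun E6 2
  have E63 := congrFun E6 3
  have E64 := congrFun E6 4
  have E65 := congrFun E6 5
  have E66 := congrFun E6 6
  have E70 := congrFun E7 0
  have E71 := congrFun E7 1
  have E72 := congrFun E7 2
  have E73 := congrFun E7 3
  have E74 := congrFun E7 4
  have E75 := congrFun E7 5
  have E76 := congrFun E7 6
  have E80 := congrFun E8 0
  have E81 := congrFun E8 1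
  have E82 := congrFun E8 2
  have E83 := congrFun E8 3
  have E84 := congrFun E8 4
  have E85 := congrFun E8 5
  have E86 := congrFun E8 6
  have E90 := congrFun E9 0
  have E91 := congrFun E9 1
  have E92 := congrFun E9 2
  have E93 := congrFun E9 3
  have E94 := congrFun E9 4
  have E95 := congrFun E9 5
  have E96 := congrFun E9 6
  simp [B, cross, va, x1, x2, x3, y1, y2, y3] at E1 E20 E21 E22 E23 E24 E25 E26 E30 E31 E32 E33 E34 E35 E36 E40 E41 E42 E43 E44 E45 E46 E50 E51 E52 E53 E54 E55 E56 E60 E61 E62 E63 E64 E65 E66 E70 E71 E72 E73 E74 E75 E76 E80 E81 E82 E83 E84 E85 E86 E90 E91 E92 E93 E94 E95 E96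
  refine ⟨-(z2 0 - z2 4), c, z2 2 - z2 6, za 2 - za 6, -(z3 1 - z3 5), -(z3 0 - z3 4), ?_⟩
  obtain ⟨p1, p2, p3, p4, p5, p6, p7⟩ := tL12
  obtain ⟨q1, q2, q3, q4, q5, q6, q7⟩ := tSp2
  obtain ⟨r1, r2, r3, r4, r5, r6, r7⟩ := tSp1
  obtain ⟨s1, s2, s3, s4, s5, s6, s7⟩ := tSm3
  obtain ⟨t1, t2, t3, t4, t5, t6, t7⟩ := tL23
  obtain ⟨u1, u2, u3, u4, u5, u6, u7⟩ := tL13
  apply null_ext
  · rw [← hza]
    simp only [nn, Matrix.add_mulVec, Matrix.smul_mulVec, p1, q1, r1, s1, t1, u1]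
    ext i
    fin_cases i <;> simp [va, x1, x2, x3, y1, y2, y3] <;> linarith
  · rw [hc]
    simp only [nn, Matrix.add_mulVec, Matrix.smul_mulVec, p2, q2, r2, s2, t2, u2]
    ext i
    fin_cases i <;> simp [va, x1, x2, x3, y1, y2, y3] <;> linarith
  · rw [← hz2]
    simp only [nn, Matrix.add_mulVec, Matrix.smul_mulVec, p3, q3, r3, s3, t3, u3]
    ext i
    fin_cases i <;> simp [va, x1, x2, x3, y1, y2, y3] <;> linarith
  · rw [← hz3]
    simp only [nn, Matrix.add_mulVec, Matrix.smul_mulVec, p4, q4, r4, s4, t4, u4]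
    ext i
    fin_cases i <;> simp [va, x1, x2, x3, y1, y2, y3] <;> linarith
  · rw [← hw1]
    simp only [nn, Matrix.add_mulVec, Matrix.smul_mulVec, p5, q5, r5, s5, t5, u5]
    ext i
    fin_cases i <;> simp [va, x1, x2, x3, y1, y2, y3] <;> linarith
  · rw [← hw2]
    simp only [nn, Matrix.add_mulVec, Matrix.smul_mulVec, p6, q6, r6, s6, t6, u6]
    ext i
    fin_cases i <;> simp [va, x1, x2, x3, y1, y2, y3] <;> linarith
  · rw [h1]
    simp only [nn, Matrix.add_mulVec, Matrix.smul_mulVec, p7, q7, r7, s7, t7, u7]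
    simp

end DB
end C37
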